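import Mathlib
import Pool.Agent.Q219.NS.Defs

/-!
# The generic point of `A × U`: definitions
-/

set_option autoImplicit false

namespace Pool.Agent.Q219.GP

open Polynomial TensorProduct Module Pool.Agent.W484.BB Pool.Agent.W484.TB Pool.Agent.TH44.SS

variable {V : Type} [AddCommGroup V] [Module ℂ V] {H : ℕ → Type} [∀ m, AddCommGroup (H m)]
  [∀ m, Module ℂ (H m)]

/-- The inclusion of the summand `⋀ ^ n V ⊗ H (m - n)` of the cohomology of degree `m` of
`A × U`. -/
noncomputable def single (m : ℕ) (n : Fin (m + 1)) :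
    (⋀[ℂ]^(n : ℕ) V) ⊗[ℂ] H (m - n) →ₗ[ℂ] Total V H m :=
  LinearMap.single ℂ (fun n : Fin (m + 1) => (⋀[ℂ]^(n : ℕ) V) ⊗[ℂ] H (m - n)) n

/-- Let `X` be the cohomology of degree `2 c` of the smooth variety `A × U` over the field with `Q`
elements, with the Frobenius endomorphism `Φ`, and `Y` the cohomology of degree `2 c` of `U`; let
`q = Q ^ c`, let `IsBase x y` mean that `x` is the pull-back of `y`, and let `D` be a set of classes on
`A × U`. The spaces `W` and `WU` are the cohomology `H ^ (2 c) (F_0, ℚ_ℓ(c))` of the generic points of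
`A × U` and of `U` with their Frobenius endomorphisms `frob` and `frobU`, and `res`, `resU` are the
restrictions to the generic points, `pull` is the pull-back. All of them commute with Frobenius; the
pull-back is injective; the invariant classes come from classes on `A × U` (`weights`); the restriction
of the pull-back of a class of `U` is the pull-back of its restriction (`base`); the restrictions of
the elements of `D` are zero (`divisor`). -/
structure GenericPoint {X Y : Type} [AddCommGroup X] [Module ℂ X] [AddCommGroup Y] [Module ℂ Y]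
    (Φ : X → X) (q : ℂ) (IsBase : X → Y → Prop) (D : Set X) where
  W : Type
  [addW : AddCommGroup W]
  [modW : Module ℂ W]
  WU : Type
  [addWU : AddCommGroup WU]
  [modWU : Module ℂ WU]
  frob : W →ₗ[ℂ] W
  frobU : WU →ₗ[ℂ] WU
  res : X →ₗ[ℂ] W
  resU : Y →ₗ[ℂ] WU
  pull : WU →ₗ[ℂ] W
  res_frob : ∀ t, res (Φ t) = q • frob (res t)
  pull_frob : ∀ z, pull (frobU z) = frob (pull z)
  pull_injective : Function.Injective pull
  weights : ∀ x, frob x = x → ∃ t, res t = x
  base : ∀ x y, IsBase x y → res x = pull (resU y)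
  divisor : ∀ x ∈ D, res x = 0

attribute [instance] GenericPoint.addW GenericPoint.modW GenericPoint.addWU GenericPoint.modWU

/-- The pull-back is a bijection from the invariant classes at the generic point of `U` to the
invariant classes at the generic point of `A × U`. -/
def GenericPoint.Same {X Y : Type} [AddCommGroup X] [Module ℂ X] [AddCommGroup Y] [Module ℂ Y]
    {Φ : X → X} {q : ℂ} {IsBase : X → Y → Prop} {D : Set X} (T : GenericPoint Φ q IsBase D) :
    Prop :=
  Set.BijOn T.pull {z | T.frobU z = z} {x | T.frob x = x}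

/-- `u = 1 ⊗ y`, `1` the unit of the exterior algebra. -/
def IsOneTensor {K : Type} [AddCommGroup K] [Module ℂ K] (u : (⋀[ℂ]^0 V) ⊗[ℂ] K) (y : K) : Prop :=
  ∃ a : ⋀[ℂ]^0 V, (a : ExteriorAlgebra ℂ V) = 1 ∧ u = a ⊗ₜ y

/-- The class `x` on `A × U` is the pull-back of the class `y` on `U`. -/
def IsBaseClass (m : ℕ) (x : Total V H m) (y : H m) : Prop :=
  ∃ u, IsOneTensor u y ∧ x = single m ⟨0, Nat.succ_pos _⟩ u

/-- `u` is a combination of products of `n / 2` classes of divisors on `A` with elements of `K`. -/
def IsDivisorial (F : V →ₗ[ℂ] V) (Q : ℂ) (n : ℕ) {K : Type} [AddCommGroup K] [Module ℂ K]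
    (u : (⋀[ℂ]^n V) ⊗[ℂ] K) : Prop :=
  incl V K n u ∈ productClasses F Q n ⊤

/-- The combinations of products of `n / 2 > 0` classes of divisors on `A` with classes on `U`. -/
def divisorClasses (F : V →ₗ[ℂ] V) (Q : ℂ) (m : ℕ) : Set (Total V H m) :=
  {x | ∃ n : Fin (m + 1), (n : ℕ) ≠ 0 ∧ ∃ u, IsDivisorial F Q n u ∧ x = single m n u}

/-- Let `V`, `F` be the first cohomology of the abelian variety `A` over the field with `Q`
elements, `H`, `G` the cohomology of the smooth variety `U`, with the Frobenius endomorphisms. The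
invariant classes in `H ^ (2 c) (F_0, ℚ_ℓ(c))` are the same for `U` and for `A × U`, for all `c`. -/
def SameFor (F : V →ₗ[ℂ] V) (G : ∀ m, H m →ₗ[ℂ] H m) (Q : ℂ) : Prop :=
  ∀ (c : ℕ) (T : GenericPoint (total F G (2 * c)) (Q ^ c) (IsBaseClass (2 * c))
    (divisorClasses F Q (2 * c))), T.Same

/-- Let `A` be an abelian variety over the field with `Q = q ^ s` elements, isogenous to a product
of powers of abelian varieties coming from the field with `q` elements, whose characteristic
polynomials of Frobenius are the `f i`, and let `U` be a smooth variety over the field with `Q`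
elements, the eigenvalues of whose Frobenius endomorphism have rank at most `r` over the number
field `E` in each degree. Then the invariant classes in `H ^ (2 c) (F_0, ℚ_ℓ(c))` are the same for `U` and
for `A × U`. -/
def SameInvariants {I : Type} (E : IntermediateField ℚ ℂ) (q r : ℕ) (f : I → ℤ[X]) : Prop :=
  ∀ (V : Type) [AddCommGroup V] [Module ℂ V] [FiniteDimensional ℂ V] (F : V →ₗ[ℂ] V),
    IsFrob f F → ∀ s : ℕ, 0 < s →
    ∀ (H : ℕ → Type) [∀ m, AddCommGroup (H m)] [∀ m, Module ℂ (H m)]
      [∀ m, FiniteDimensional ℂ (H m)] (G : ∀ m, H m →ₗ[ℂ] H m),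
      (∀ m, SmallRankOver E r (G m)) → SameFor (F ^ s) G ((q : ℂ) ^ s)

end Pool.Agent.Q219.GP
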