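import Mathlib
import Pool.Agent.Q219.NS.Pair2

/-!
# Generalized eigenvectors of the Frobenius endomorphism of a product
-/

set_option autoImplicit false
set_option linter.unusedSectionVars false

namespace Pool.Agent.Q219.GP

open Polynomial TensorProduct Module Pool.Agent.W484.AA Pool.Agent.W484.TB Pool.Agent.W484.BB
  Pool.Agent.TH44.SS Pool.Agent.W521.Count Pool.Agent.W521.Descent Pool.Agent.W521.Bad
  Pool.Agent.H925R2 Pool.Agent.W484.AS

variable {V : Type} [AddCommGroup V] [Module ℂ V]

theorem tmul_mem_product (F : V →ₗ[ℂ] V) (Q : ℂ) (n k : ℕ) (hn : n = 2 * k) {K : Type}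
    [AddCommGroup K] [Module ℂ K] (h : K) (x : ExteriorAlgebra ℂ V) (hx : x ∈ divSpan F Q k) :
    x ⊗ₜ[ℂ] h ∈ productClasses F Q n (⊤ : Submodule ℂ K) := by
  have h' : divSpan F Q k ≤ (productClasses F Q n (⊤ : Submodule ℂ K)).comap
      ((TensorProduct.mk ℂ (ExteriorAlgebra ℂ V) K).flip h) := by
    refine Submodule.span_le.2 ?_
    rintro _ ⟨Z, hZ, rfl⟩
    exact Submodule.subset_span ⟨k, Z, h, hn, hZ, Submodule.mem_top, rfl⟩
  exact h' hx

/-- The map `x ↦ T x - μ x`. -/
def dev {M : Type*} [AddCommGroup M] [Module ℂ M] (T : M →ₗ[ℂ] M) (μ : ℂ) (x : M) : M :=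
  T x - μ • x

theorem last_nonzero {M : Type*} [AddCommGroup M] (S : M → M) (x : M)
    (hx : x ≠ 0) (j : ℕ) (h : S^[j] x = 0) : ∃ w, w ≠ 0 ∧ S w = 0 := by
  induction j generalizing x with
  | zero => exact absurd h hx
  | succ j ih =>
    by_cases h1 : S x = 0
    · exact ⟨x, hx, h1⟩
    · exact ih (S x) h1 h

/-- **Generalized Tate classes on the product.** -/
theorem mem_gen {K : Type} [AddCommGroup K] [Module ℂ K] {X : Type*} [FiniteDimensional ℂ V]
    (F : V →ₗ[ℂ] V) (val : X → ℂ) (hF : Submodule.span ℂ {v : V | ∃ x, F v = val x • v} = ⊤)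
    (Q : ℂ) (hQ : Q ≠ 0) (G : K →ₗ[ℂ] K)
    (hG : ∀ ρ, Module.End.HasEigenvalue G ρ → ExactPair val Q ρ)
    (n c j : ℕ) (u : (⋀[ℂ]^n V) ⊗[ℂ] K)
    (hu : (dev (TensorProduct.map (exteriorPower.map n F) G) (Q ^ c))^[j] u = 0) :
    incl V K n u ∈ productClasses F Q n (⊤ : Submodule ℂ K) := by
  classical
  obtain ⟨r, b, α, hα, hb⟩ := exists_eigenbasis_list F val hF n
  set e := TensorProduct.equivFinsuppOfBasisLeft (N := K) b with he
  have hT : ∀ u i, e (TensorProduct.map (exteriorPower.map n F) G u) i = α i • G (e u i) := by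
    intro u i
    have hT : ∀ x, b.repr (exteriorPower.map n F x) i = α i * b.repr x i := by
      intro x
      have h1 : b.coord i ∘ₗ exteriorPower.map n F = α i • b.coord i := by
        refine b.ext fun k => ?_
        rw [LinearMap.comp_apply, hb, map_smul, LinearMap.smul_apply, Basis.coord_apply,
          Basis.repr_self, Finsupp.single_apply]
        split_ifs with h
        · rw [h]
        · rw [smul_zero, smul_zero]
      exact LinearMap.congr_fun h1 x
    induction u using TensorProduct.induction_on with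
    | zero => simp
    | tmul x y =>
      rw [TensorProduct.map_tmul, he, TensorProduct.equivFinsuppOfBasisLeft_apply_tmul_apply,
        TensorProduct.equivFinsuppOfBasisLeft_apply_tmul_apply, hT, map_smul, smul_smul]
    | add x y hx hy =>
      rw [map_add, map_add, map_add, Finsupp.add_apply, Finsupp.add_apply, hx, hy, map_add,
        smul_add]
  have hS : ∀ (l : ℕ) (u : (⋀[ℂ]^n V) ⊗[ℂ] K) (i : Fin r),
      e ((dev (TensorProduct.map (exteriorPower.map n F) G) (Q ^ c))^[l] u) i =
        (dev (α i • G) (Q ^ c))^[l] (e u i) := by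
    intro l
    induction l with
    | zero => intro u i; rfl
    | succ l ih =>
      intro u i
      rw [Function.iterate_succ_apply, ih, Function.iterate_succ_apply]
      congr 1
      rw [dev, dev, map_sub, Finsupp.sub_apply, hT, map_smul, Finsupp.smul_apply,
        LinearMap.smul_apply]
  have hsum : u = ∑ i, b i ⊗ₜ[ℂ] e u i := by
    apply e.injective
    refine Finsupp.ext fun i => ?_
    rw [map_sum, Finsupp.finsetSum_apply]
    simp only [he, TensorProduct.equivFinsuppOfBasisLeft_apply_tmul_apply, Basis.repr_self,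
      Finsupp.single_apply, ite_smul, one_smul, zero_smul]
    rw [Finset.sum_ite_eq']
    simp
  rw [hsum, map_sum]
  refine Submodule.sum_mem _ fun i _ => ?_
  have h5 : incl V K n (b i ⊗ₜ e u i) = (b i : ExteriorAlgebra ℂ V) ⊗ₜ e u i := by
    rw [incl, TensorProduct.map_tmul]
    rfl
  rw [h5]
  by_cases hi : e u i = 0
  · rw [hi, TensorProduct.tmul_zero]
    exact Submodule.zero_mem _
  obtain ⟨w, hw0, hw⟩ := last_nonzero (dev (α i • G) (Q ^ c)) (e u i) hi j (by
    rw [← hS, hu, map_zero, Finsupp.zero_apply])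
  rw [dev, LinearMap.smul_apply, sub_eq_zero] at hw
  have hQc : Q ^ c ≠ 0 := pow_ne_zero _ hQ
  have hα0 : α i ≠ 0 := by
    intro h0
    rw [h0, zero_smul] at hw
    rcases smul_eq_zero.1 hw.symm with h4 | h4
    · exact hQc h4
    · exact hw0 h4
  have h2 : G w = (Q ^ c / α i) • w := by
    have h3 := congrArg (fun z => (α i)⁻¹ • z) hw
    simp only [smul_smul] at h3
    rw [inv_mul_cancel₀ hα0, one_smul] at h3
    rw [h3, div_eq_inv_mul]
  have h3 : Module.End.HasEigenvalue G (Q ^ c / α i) :=
    Module.End.hasEigenvalue_of_hasEigenvector ⟨Module.End.mem_eigenspace_iff.2 h2, hw0⟩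
  have hrel : (α i * (Q ^ c / α i)) ^ 1 = (Q ^ (c : ℤ)) ^ 1 := by
    rw [mul_div_cancel₀ _ hα0, zpow_natCast]
  have hlist := list_exact (V := V) F val Q _ hQ (hG _ h3) n c 1 one_pos
  obtain ⟨L, hL, hLα⟩ := hα i
  obtain ⟨k, hk, -, -⟩ := hlist (L.map (fun x => ((0 : V), x))) (by rw [List.length_map, hL])
    (by
      intro e he
      rw [List.mem_map] at he
      obtain ⟨x, _, rfl⟩ := he
      rw [map_zero, smul_zero]) (by
      rw [List.map_map]
      have h6 : ((fun e : V × X => val e.2) ∘ fun x => ((0 : V), x)) = val := rfl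
      rw [h6, ← hLα]
      exact hrel)
  refine tmul_mem_product F Q n k hk _ _ ?_
  have h6 : ExteriorAlgebra.map F (b i : ExteriorAlgebra ℂ V) = α i • (b i :
      ExteriorAlgebra ℂ V) := by
    rw [← Pool.Agent.W484.BB.coe_map, hb i]
    rfl
  refine mem_of_lists_sub F val hF n 1 (α i) _ ?_ _ (b i).2 (by
    rw [pow_one]
    exact h6)
  intro L hlen hL hLα
  rw [pow_one] at hLα
  obtain ⟨k', hk', -, h7⟩ := hlist L hlen hL (by rw [hLα]; exact hrel)
  have h8 : k' = k := by omega
  rw [← h8]
  exact h7

/-- A homomorphism from a finite-dimensional space commuting with the operators: eigenvectors in the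
image are images of generalized eigenvectors. -/
theorem exists_gen {M W : Type*} [AddCommGroup M] [Module ℂ M] [FiniteDimensional ℂ M]
    [AddCommGroup W] [Module ℂ W] (T : M →ₗ[ℂ] M) (S : W →ₗ[ℂ] W) (res : M →ₗ[ℂ] W)
    (h : ∀ t, res (T t) = S (res t)) (μ : ℂ) (t : M) (ht : S (res t) = μ • res t) :
    ∃ t', (∃ j : ℕ, (dev T μ)^[j] t' = 0) ∧ res t' = res t := by
  have hχ : LinearMap.charpoly T ≠ 0 := (LinearMap.charpoly_monic T).ne_zero
  obtain ⟨g, hg, hgμ⟩ := Polynomial.exists_eq_pow_rootMultiplicity_mul_and_not_dvd _ hχ μ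
  set a := Polynomial.rootMultiplicity μ (LinearMap.charpoly T) with ha
  have hg0 : g.eval μ ≠ 0 := by
    intro h0
    exact hgμ (Polynomial.dvd_iff_isRoot.2 h0)
  have hres : ∀ (p : ℂ[X]) (t : M), res (aeval T p t) = aeval S p (res t) := by
    intro p t
    induction p using Polynomial.induction_on' with
    | add p q hp hq =>
      rw [map_add, map_add, LinearMap.add_apply, LinearMap.add_apply, map_add, hp, hq]
    | monomial n c =>
      rw [Polynomial.aeval_monomial, Polynomial.aeval_monomial]
      have h1 : ∀ (n : ℕ) (t : M), res ((T ^ n) t) = (S ^ n) (res t) := by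
        intro n
        induction n with
        | zero => intro t; simp
        | succ n ih => intro t; rw [pow_succ, Module.End.mul_apply, ih, h, pow_succ,
            Module.End.mul_apply]
      rw [Module.End.mul_apply, Module.End.mul_apply, Module.algebraMap_end_apply,
        Module.algebraMap_end_apply, map_smul, h1]
  have heig : ∀ p : ℂ[X], aeval S p (res t) = p.eval μ • res t := by
    intro p
    induction p using Polynomial.induction_on' with
    | add p q hp hq => rw [map_add, LinearMap.add_apply, hp, hq, Polynomial.eval_add, add_smul]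
    | monomial n c =>
      rw [Polynomial.aeval_monomial, Module.End.mul_apply, Module.algebraMap_end_apply,
        pow_smul_iter S (res t) ht, smul_smul, Polynomial.eval_monomial]
  refine ⟨(g.eval μ)⁻¹ • aeval T g t, ⟨a, ?_⟩, ?_⟩
  · have h1 : ∀ (j : ℕ) (x : M), (dev T μ)^[j] x =
        aeval T ((Polynomial.X - Polynomial.C μ) ^ j) x := by
      intro j
      induction j with
      | zero => intro x; simp
      | succ j ih =>
        intro x
        rw [Function.iterate_succ_apply, ih, pow_succ, map_mul, Module.End.mul_apply]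
        congr 1
        rw [map_sub, Polynomial.aeval_X, Polynomial.aeval_C, LinearMap.sub_apply,
          Module.algebraMap_end_apply, dev]
    rw [h1, map_smul, ← Module.End.mul_apply, ← map_mul, ← hg, LinearMap.aeval_self_charpoly,
      LinearMap.zero_apply, smul_zero]
  · rw [map_smul, hres, heig, smul_smul, inv_mul_cancel₀ hg0, one_smul]

end Pool.Agent.Q219.GP
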