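import Mathlib
import Pool.Agent.Q219.GP.Gen
import Pool.Agent.Q219.GP.Defs

/-!
# The generic point of `A × U`: the theorem for good families
-/

set_option autoImplicit false

namespace Pool.Agent.Q219.GP

open Polynomial TensorProduct Module Pool.Agent.W484.AA Pool.Agent.W484.TB Pool.Agent.W484.BB
  Pool.Agent.TH44.SS Pool.Agent.W521.Count Pool.Agent.W521.Descent Pool.Agent.W521.Bad
  Pool.Agent.H925R2 Pool.Agent.Q219.NS Pool.Agent.W521.Frob

variable {V : Type} [AddCommGroup V] [Module ℂ V] {H : ℕ → Type} [∀ m, AddCommGroup (H m)]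
  [∀ m, Module ℂ (H m)]

instance [FiniteDimensional ℂ V] [∀ m, FiniteDimensional ℂ (H m)] (m : ℕ) :
    FiniteDimensional ℂ (Total V H m) :=
  inferInstanceAs (FiniteDimensional ℂ (∀ n : Fin (m + 1), (⋀[ℂ]^(n : ℕ) V) ⊗[ℂ] H (m - n)))

theorem sum_single (m : ℕ) (t : Total V H m) : ∑ n, single m n (comp m n t) = t := by
  classical
  exact Finset.univ_sum_single (M := fun n : Fin (m + 1) => (⋀[ℂ]^(n : ℕ) V) ⊗[ℂ] H (m - n)) t

theorem comp_dev (F : V →ₗ[ℂ] V) (G : ∀ m, H m →ₗ[ℂ] H m) (m : ℕ) (μ : ℂ) (n : Fin (m + 1))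
    (j : ℕ) (t : Total V H m) : comp m n ((dev (total F G m) μ)^[j] t) =
      (dev (TensorProduct.map (exteriorPower.map (n : ℕ) F) (G (m - n))) μ)^[j] (comp m n t) := by
  induction j generalizing t with
  | zero => rfl
  | succ j ih =>
    rw [Function.iterate_succ_apply, ih, Function.iterate_succ_apply]
    congr 1

theorem exists_one (K : Type) [AddCommGroup K] [Module ℂ K] (u : (⋀[ℂ]^0 V) ⊗[ℂ] K) :
    ∃ (a : ⋀[ℂ]^0 V) (y : K), (a : ExteriorAlgebra ℂ V) = 1 ∧ u = a ⊗ₜ y := by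
  set a : ⋀[ℂ]^0 V := (exteriorPower.zeroEquiv (R := ℂ) (M := V)).symm 1 with ha
  have h1 : (a : ExteriorAlgebra ℂ V) = 1 := by
    rw [ha, exteriorPower.zeroEquiv_symm_apply, one_smul, exteriorPower.ιMulti_apply_coe,
      ExteriorAlgebra.ιMulti_zero_apply]
  refine ⟨a, ?_⟩
  suffices h : ∃ y : K, u = a ⊗ₜ y by
    obtain ⟨y, hy⟩ := h
    exact ⟨y, h1, hy⟩
  induction u using TensorProduct.induction_on with
  | zero => exact ⟨0, by rw [TensorProduct.tmul_zero]⟩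
  | tmul b y =>
    refine ⟨(exteriorPower.zeroEquiv (R := ℂ) (M := V) b) • y, ?_⟩
    have h2 : b = exteriorPower.zeroEquiv (R := ℂ) (M := V) b • a := by
      rw [ha, ← map_smul, smul_eq_mul, mul_one, LinearEquiv.symm_apply_apply]
    rw [← TensorProduct.smul_tmul, ← h2]
  | add x y hx hy =>
    obtain ⟨x', hx⟩ := hx
    obtain ⟨y', hy⟩ := hy
    exact ⟨x' + y', by rw [hx, hy, TensorProduct.tmul_add]⟩

theorem same_of {X : Type*} [FiniteDimensional ℂ V] [∀ m, FiniteDimensional ℂ (H m)]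
    (F : V →ₗ[ℂ] V) (val : X → ℂ) (hF : Submodule.span ℂ {v : V | ∃ x, F v = val x • v} = ⊤)
    (Q : ℂ) (hQ : Q ≠ 0) (G : ∀ m, H m →ₗ[ℂ] H m)
    (hG : ∀ m ρ, Module.End.HasEigenvalue (G m) ρ → ExactPair val Q ρ) : SameFor F G Q := by
  intro c T
  refine ⟨fun z hz => ?_, T.pull_injective.injOn, fun x hx => ?_⟩
  · have h1 : T.frobU z = z := hz
    have h2 : T.frob (T.pull z) = T.pull z := by rw [← T.pull_frob, h1]
    exact h2
  · have hx' : T.frob x = x := hx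
    obtain ⟨t, ht⟩ := T.weights x hx'
    obtain ⟨t', ⟨j, hj⟩, ht'⟩ := exists_gen (total F G (2 * c)) (Q ^ c • T.frob) T.res
      (fun t => by rw [T.res_frob, LinearMap.smul_apply]) (Q ^ c) t
      (by rw [ht, LinearMap.smul_apply, hx'])
    have h1 : ∀ n : Fin (2 * c + 1), n ≠ ⟨0, Nat.succ_pos _⟩ →
        T.res (single (2 * c) n (comp (2 * c) n t')) = 0 := by
      intro n hn
      refine T.divisor _ ⟨n, fun h0 => hn (Fin.ext h0), _, ?_, rfl⟩
      refine mem_gen F val hF Q hQ (G (2 * c - n)) (hG _) n c j _ ?_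
      rw [← comp_dev, hj, map_zero]
    have h2 : x = T.res (single (2 * c) ⟨0, Nat.succ_pos _⟩
        (comp (2 * c) ⟨0, Nat.succ_pos _⟩ t')) := by
      have h3 := congrArg T.res (sum_single (2 * c) t')
      rw [map_sum, Finset.sum_eq_single ⟨0, Nat.succ_pos _⟩ (fun n _ hn => h1 n hn)
        (fun h => absurd (Finset.mem_univ _) h)] at h3
      rw [← ht, ← ht', ← h3]
    obtain ⟨a, y, ha, hy⟩ := exists_one (H (2 * c - 0)) (comp (2 * c) ⟨0, Nat.succ_pos _⟩ t')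
    have h3 : x = T.pull (T.resU y) := by
      rw [h2, ← T.base _ y ⟨_, ⟨a, ha, rfl⟩, rfl⟩]
      exact congrArg (fun u => T.res (single (2 * c) ⟨0, Nat.succ_pos _⟩ u)) hy
    refine ⟨T.resU y, ?_, h3.symm⟩
    have h4 : T.frobU (T.resU y) = T.resU y := T.pull_injective (by rw [T.pull_frob, ← h3, hx'])
    exact h4

theorem sameInvariants_good {I : Type} [Finite I] (E : IntermediateField ℚ ℂ)
    [FiniteDimensional ℚ E] {q : ℕ} (hq : q ≠ 0) (r : ℕ) (h : I → ℤ[X]) (hm : ∀ i, (h i).Monic)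
    (hr : ∀ i, r < (h i).natDegree) (hx : Pool.Agent.Q219.NS.Good (splitPrimes E) q h) :
    SameInvariants E q r (fun i => weil q (h i)) := by
  intro V _ _ _ F hF s hs H _ _ _ G hG
  have hQ : (q : ℂ) ^ s ≠ 0 := pow_ne_zero _ (by exact_mod_cast hq)
  refine same_of (F ^ s) _ (span_pow F hF s) ((q : ℂ) ^ s) hQ G (fun m ρ hρ => ?_)
  obtain ⟨χ, hχ, hχe, hrank⟩ := hG m
  exact exactPair_good E hq r h hm hr hx s hs χ hχ hrank ρ (hχe ρ hρ)

end Pool.Agent.Q219.GP
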